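import Pool.Agent.H58.CarnotQ

namespace Pool.Agent.Results.MP_40d5d3_al.Disproof
open Pool.Agent.H58.Carnot
open scoped Pointwise

theorem result : (∀ (n : ℕ) (B : Type) [Group B], IsEmpty (N ≃* Heis n × B)) ∧
    (∀ a b, ccE a b ≠ ⊤) ∧
    ∃ F : N → N, Function.Bijective F ∧
      (∀ a b, ccE (F a) (F b) ≤ 146 * ccE a b ∧ ccE a b ≤ 146 * ccE (F a) (F b)) ∧
      ∀ h : N, dH (F '' (commutator N : Set N)) (h • (commutator N : Set N)) = ⊤ := by
  have i2 : ∀ g, G 1 (G (-1) g) = g := fun g => by simpa using G_inv (-1) g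
  refine ⟨nofactor, ccE_fin, G 1, Function.bijective_iff_has_inverse.2 ⟨G (-1), G_inv 1, i2⟩,
    fun a b => ⟨ccE_le (by simp) a b, ?_⟩, fun h => ?_⟩
  · simpa only [G_inv] using ccE_le (σ := -1) (by simp) (G 1 a) (G 1 b)
  · refine ENNReal.eq_top_of_forall_nnreal_le fun r => le_max_of_le_left ?_
    refine le_iSup₂_of_le (G 1 (cen (Real.exp (r + |h.c 2|)) 0))
      ⟨_, mem_comm.2 ⟨_, _, rfl⟩, rfl⟩ (le_iInf₂ ?_)
    rintro _ ⟨a, ha, rfl⟩
    obtain ⟨s, w, rfl⟩ := mem_comm.1 ha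
    refine le_trans ?_ (le_ccE _ _)
    rw [← ENNReal.ofReal_coe_nnreal]
    refine ENNReal.ofReal_le_ofReal (le_abs.2 (.inr ?_))
    have p : 1 ≤ Real.exp (r + |h.c 2|) := Real.one_le_exp (by positivity)
    have : r + |h.c 2| ≤ Real.log (1 + Real.exp (r + |h.c 2|) ^ 2) :=
      (Real.le_log_iff_exp_le (by positivity)).2 (by nlinarith)
    simp [G, g, D, cen, mul_c]
    linarith [le_abs_self (h.c 2)]

end Pool.Agent.Results.MP_40d5d3_al.Disproof
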